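import Pool.Agent.Lib.MP_f87a07_co.Transfer

set_option autoImplicit false

namespace Pool.Agent.Results.MP_f87a07_co.SuperExp

/-- For every `n ≥ 56` some friends-and-strangers graph on `n`-vertex graphs has two vertices in one
component at distance at least `⌊n/8⌋ ^ ⌊n/8⌋`. -/
theorem result : ∀ n : ℕ, 56 ≤ n → ∃ (X Y : SimpleGraph (Fin n)) (σ τ : Equiv.Perm (Fin n)),
    (SimpleGraph.fromRel (fun s t : Equiv.Perm (Fin n) =>
        ∃ a b : Fin n, X.Adj a b ∧ Y.Adj (s a) (s b) ∧ t = s * Equiv.swap a b)).Reachable σ τ ∧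
    (n / 8) ^ (n / 8) ≤ (SimpleGraph.fromRel (fun s t : Equiv.Perm (Fin n) =>
        ∃ a b : Fin n, X.Adj a b ∧ Y.Adj (s a) (s b) ∧ t = s * Equiv.swap a b)).dist σ τ := by
  intro n hn
  obtain ⟨m, L, hL, hm, hk, e⟩ : ∃ m L : ℕ, L % 2 = 0 ∧ n / 8 ≤ m ∧ n / 8 + 1 ≤ L ∧
      n = L + 5 * m + 7 := by
    by_cases h : (n + n / 8) % 2 = 1
    · exact ⟨n / 8, n - 5 * (n / 8) - 7, by omega, le_rfl, by omega, by omega⟩
    · exact ⟨n / 8 + 1, n - 5 * (n / 8) - 12, by omega, by omega, by omega, by omega⟩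
  have h7 : 7 ≤ n / 8 := by omega
  generalize n / 8 = k at hm hk h7
  subst e
  obtain ⟨X, Y, σ, τ, hr, hd⟩ :=
    Pool.Agent.Lib.MP_f87a07_co.exists_far m L hL (by omega) (by omega)
  refine ⟨X, Y, σ, τ, hr, le_trans ?_ hd⟩
  calc k ^ k ≤ k ^ m := Nat.pow_le_pow_right (by omega) hm
    _ = k * k ^ (m - 1) := by rw [← pow_succ']; congr 1; omega
    _ ≤ L * (L - 1) ^ (m - 1) := Nat.mul_le_mul (by omega) (Nat.pow_le_pow_left (by omega) _)

end Pool.Agent.Results.MP_f87a07_co.SuperExp
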